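import Mathlib
import Pool.Agent.Lib.MP_1dbab3_gt.AsC
import Pool.Agent.Lib.MP_1dbab3_gt.WEnd

namespace Pool.Agent.Results.MP_1dbab3_gt.AllMaximalSections

open Real MeasureTheory Filter Topology

/-- `ℂ^n` with its standard Hermitian structure. -/
abbrev V (n : ℕ) := EuclideanSpace ℂ (Fin n)

/-- The unit ball of complex `ℓ_p^n`. -/
def ball (p : ℝ) (n : ℕ) : Set (V n) := {z | ∑ i, ‖z i‖ ^ p ≤ 1}

/-- The volume of the unit ball of complex `ℓ_p^n`. -/
noncomputable def ballVol (p : ℝ) (n : ℕ) : ENNReal := volume (ball p n)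

/-- The complex hyperplane `a^⊥`, as a real subspace of `ℂ^n = ℝ^(2n)`. -/
noncomputable def hyp {n : ℕ} (a : V n) : Submodule ℝ (V n) := ((ℂ ∙ a)ᗮ).restrictScalars ℝ

/-- The complex hyperplane `a^⊥` as a type. -/
abbrev H {n : ℕ} (a : V n) : Type := hyp a

/-- The norm inherited from `ℂ^n`. -/
noncomputable instance instNorm {n : ℕ} (a : V n) : NormedAddCommGroup (H a) :=
  (hyp a).normedAddCommGroup

/-- The real inner product inherited from `ℂ^n`. -/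
noncomputable instance instInner {n : ℕ} (a : V n) : InnerProductSpace ℝ (H a) :=
  (hyp a).innerProductSpace

instance instFin {n : ℕ} (a : V n) : FiniteDimensional ℝ (H a) :=
  inferInstanceAs (FiniteDimensional ℝ (hyp a))

/-- The Borel sets. -/
noncomputable instance instMeas {n : ℕ} (a : V n) : MeasurableSpace (H a) :=
  (inferInstance : MeasurableSpace (V n)).comap (fun z : H a => (z : V n))

instance instBorel {n : ℕ} (a : V n) : BorelSpace (H a) :=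
  inferInstanceAs (BorelSpace (hyp a))

/-- Lebesgue measure of the Euclidean space `a^⊥` (Mathlib's `volume`: a cube spanned by an
orthonormal basis has measure one). -/
noncomputable def vol {n : ℕ} (a : V n) : Measure (H a) :=
  (@measureSpaceOfInnerProductSpace (H a) (instNorm a) (instInner a) (instFin a) (instMeas a)
    (instBorel a)).volume

/-- The `(2n-2)`-dimensional volume of the section of the unit ball by `a^⊥`. -/
noncomputable def secVol (p : ℝ) {n : ℕ} (a : V n) : ENNReal :=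
  vol a {z : H a | (z : V n) ∈ ball p n}

/-- `M_{p,n}`, the supremum of the volumes over all unit vectors `a` of `ℂ^n`. -/
noncomputable def M (p : ℝ) (n : ℕ) : ENNReal := ⨆ a : {a : V n // ‖a‖ = 1}, secVol p a.1

/-- All coordinates of `a` have modulus `1/√n`. -/
def IsFlat {n : ℕ} (a : V n) : Prop := ∀ i, ‖a i‖ = 1 / √(n : ℝ)

/-- Two coordinates of `a` have modulus `1/√2` (so the others vanish if `a` is a unit vector). -/
def IsPair {n : ℕ} (a : V n) : Prop := ∃ i j, i ≠ j ∧ ‖a i‖ = 1 / √2 ∧ ‖a j‖ = 1 / √2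

/-- `J0 v = J₀(2√v)`, with the Bessel function `J₀`. -/
noncomputable def J0 (v : ℝ) : ℝ := ∑' m : ℕ, (-v) ^ m / (m.factorial : ℝ) ^ 2

/-- `φ_p(s) = Γ(1+2/p)⁻¹ ∫_0^∞ exp(-ρ^(p/2)) J₀(2√(sρ)) dρ`, the characteristic function of the
probability density proportional to `exp(-|z|^p)` on `ℂ` at the points of modulus `2√s`. -/
noncomputable def phi (p s : ℝ) : ℝ :=
  (∫ ρ in Set.Ioi (0 : ℝ), exp (-ρ ^ (p / 2)) * J0 (s * ρ)) / Gamma (1 + 2 / p)

/-- `R(p,n) = Γ(1+2/p) ∫_0^∞ φ_p(s/n)^n ds`. -/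
noncomputable def R (p : ℝ) (n : ℕ) : ℝ :=
  Gamma (1 + 2 / p) * ∫ s in Set.Ioi (0 : ℝ), phi p (s / n) ^ n

/-- `P(p) = 2^(1-2/p)`. -/
noncomputable def P (p : ℝ) : ℝ := 2 ^ (1 - 2 / p)

/-- The constant `C_p = 2 Γ(1+2/p)² / Γ(1+4/p)`. -/
noncomputable def C (p : ℝ) : ℝ := 2 * Gamma (1 + 2 / p) ^ 2 / Gamma (1 + 4 / p)

/-- The threshold dimension: the least `n ≥ 3` with `P(p) ≤ R(p,n)`. -/
noncomputable def N (p : ℝ) : ℕ := sInf {n : ℕ | 3 ≤ n ∧ P p ≤ R p n}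

/-- For all `p > 2` and `n ≥ 2`: `M_{p,n} = max(P(p), R(p,n)) vol(B_p^(n-1))`, with
`vol(B_p^m) = (π Γ(1+2/p))^m / Γ(1+2m/p)`; a unit vector `a` attains the maximum iff it is of the
type `IsPair` and `R(p,n) ≤ P(p)`, or of the type `IsFlat` and `P(p) ≤ R(p,n)`. Moreover
`R(p,2) = P(p)`, `R(p,n) < P(p)` for `3 ≤ n < N(p)`, `P(p) ≤ R(p,N(p))`, and beyond `N(p)` the
sequence `R(p,n)` increases strictly to `C_p`. Finally `N(p) = 3` for `p` close to `2`, and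
`N(p) / p → 1 / (6 log 2)` as `p → ∞`. -/
theorem result :
    (∀ p : ℝ, 2 < p → ∀ n : ℕ, 2 ≤ n →
      M p n = ENNReal.ofReal (max (P p) (R p n)) * ballVol p (n - 1) ∧
      ballVol p (n - 1) = ENNReal.ofReal
        ((π * Gamma (1 + 2 / p)) ^ (n - 1) / Gamma (1 + 2 * (n - 1 : ℕ) / p)) ∧
      (∀ a : V n, ‖a‖ = 1 →
        (secVol p a = M p n ↔ (IsPair a ∧ R p n ≤ P p) ∨ (IsFlat a ∧ P p ≤ R p n)) ∧
        (IsPair a → secVol p a = ENNReal.ofReal (P p) * ballVol p (n - 1)) ∧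
        (IsFlat a → secVol p a = ENNReal.ofReal (R p n) * ballVol p (n - 1)))) ∧
    (∀ p : ℝ, 2 < p →
      3 ≤ N p ∧ R p 2 = P p ∧ (∀ n : ℕ, 3 ≤ n → n < N p → R p n < P p) ∧
      P p ≤ R p (N p) ∧ (∀ n : ℕ, N p < n → P p < R p n) ∧
      (∀ n : ℕ, N p ≤ n → R p n < R p (n + 1)) ∧
      (∀ n : ℕ, 2 ≤ n → R p n < C p) ∧ Tendsto (R p) atTop (𝓝 (C p))) ∧
    (∃ p1 : ℝ, 2 < p1 ∧ ∀ p : ℝ, 2 < p → p < p1 → N p = 3 ∧ P p < R p 3) ∧
    Tendsto (fun p : ℝ => (N p : ℝ) / p) atTop (𝓝 (1 / (6 * log 2))) := by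
  refine ⟨fun p hp n hn => ?_, fun p hp => ?_, ?_, ?_⟩
  · obtain ⟨h1, h2⟩ := LpSec.F5.final5_max LpSec.core_total hp hn
    exact ⟨h1, LpSec.F5.ballVol_eq hp (by omega), fun a ha => ⟨h2 a ha,
      fun h => LpSec.F5.secVol_pairT hp hn a ha h, fun h => LpSec.F5.secVol_flatT hp hn a ha h⟩⟩
  · obtain ⟨h1, h2, h3, h4, h5, h6⟩ := LpSec.F5.final5_thr LpSec.core_total hp
    obtain ⟨h7, h8⟩ := LpSec.F5.final5_lim hp
    exact ⟨h1, h2, h3, h4, h5, h6, h7, h8⟩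
  · exact LpSec.F5.final5_near LpSec.core_total
  · exact LpSec.AsN.NP_lim LpSec.core_total

end Pool.Agent.Results.MP_1dbab3_gt.AllMaximalSections
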